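import Pool.Agent.Helper730_PP.RealQ2
import Pool.Agent.Helper730_PP.NoSol
import Pool.Agent.Helper730_PP.Compact
import Pool.Agent.Helper730_PP.StructXi

/-!
# Generic real dynamic pole placement for even `m` and even `p`: failure at the critical degree

The necessary condition of Willems and Hesselink is `n ≤ q(m+p-1) + mp`.  We show that for all
even `m` and even `p` and every `q ≥ 1` the property fails also at `n = q(m+p-1) + mp`.
-/

open Polynomial

open Pool.Agent.Helper730_PP

/-- For all even `m = 2a` and even `p = 2b`, every `q ≥ 1` and every `n ≥ q(m+p-1) + mp`, generic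
real pole placement fails. -/
theorem Pool.Agent.Results.MP_cc7c04_an.EvenAll.result (a b q n : ℕ) (ha : 1 ≤ a)
    (hb : 1 ≤ b) (_hq : 1 ≤ q) (hn : q * (2 * a + 2 * b - 1) + 2 * a * (2 * b) ≤ n) :
    ¬ GenericRealPolePlacement (2 * a) (2 * b) n q := by
  obtain ⟨t, ht⟩ := exists_algebraicIndependent
    (PI b (a + b) ((n / 2) / b + 1) (wbal b (n / 2)) ⊕ Fin (n + q + 1))
  set e : Fin (a + b) × Fin 2 ≃ Fin (2 * a + 2 * b) :=
    finProdFinEquiv.trans (finCongr (by ring)) with he
  set φ : ℝ[X] := ofC fun l : Fin (n + q + 1) => t (Sum.inr l) with hφ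
  have hφt : ∀ k : Fin (n + q + 1), φ.coeff k = t (Sum.inr k) := by
    intro k
    rw [hφ, ofC_coeff, dif_pos k.2]
  have htop : φ.coeff (n + q) ≠ 0 := by
    have h1 : φ.coeff (n + q) = t (Sum.inr (Fin.last (n + q))) := hφt (Fin.last (n + q))
    rw [h1]
    exact ht.ne_zero _
  have hφ0 : φ ≠ 0 := by
    intro h0
    rw [h0, coeff_zero] at htop
    exact htop rfl
  have hφd : φ.natDegree = n + q := by
    refine le_antisymm ?_ (le_natDegree_of_ne_zero htop)
    rw [natDegree_le_iff_coeff_eq_zero]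
    intro k hk
    rw [hφ, ofC_coeff, dif_neg (by omega)]
  have hn1 : (2 * (a + b) - 1) * q + 4 * (a * b) ≤ n := by
    have h1 : 2 * (a + b) - 1 = 2 * a + 2 * b - 1 := by omega
    calc (2 * (a + b) - 1) * q + 4 * (a * b) = q * (2 * a + 2 * b - 1) + 2 * a * (2 * b) := by
          rw [h1]; ring
      _ ≤ n := hn
  refine not_generic_of_no_xi (by omega) (by omega)
    (realQ e (matA fun x => t (Sum.inl x))) φ hφd hφ0
    (fun i j => realQ_natDegree (by omega) e _ i j) ?_
  intro ξ hξd hξ τ hτeq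
  by_contra hcon
  push Not at hcon
  obtain ⟨δ, B, θ, hB, hθ, hdeg, hξB⟩ := hξ.exists_lattice hξd hcon
  have h1 : θ * (((2 * a).factorial : ℝ[X]) * (stack (Matrix.of B)
      (realQ e (matA fun x => t (Sum.inl x)))).det) = C τ * φ := by
    rw [← hτeq, ← pairing_minor, Finset.mul_sum]
    refine Finset.sum_congr rfl fun J _ => ?_
    rw [hξB J, mul_assoc]
  have hfact : ((2 * a).factorial : ℝ) ≠ 0 := Nat.cast_ne_zero.mpr (Nat.factorial_ne_zero _)
  have hfactC : ((2 * a).factorial : ℝ[X]) = C ((2 * a).factorial : ℝ) := by simp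
  have hdet := stack_det_ne2 (a := a) (b := b) (c := a + b) (q := q) (nc := n / 2) ha hb rfl
    (by omega) e (ht.comp Sum.inl Sum.inl_injective)
    (by omega : ∑ k, δ k ≤ q) hB
  by_cases hτ : τ = 0
  · rw [hτ, C_0, zero_mul, hfactC] at h1
    exact mul_ne_zero hθ (mul_ne_zero (C_ne_zero.mpr hfact) hdet) h1
  · refine no_sol (a := a) (b := b) (c := a + b) (nc := n / 2) (n := n) (q := q) (by omega)
      (by omega) rfl hn1 e ht hφt hφd hφ0 hB hθ hdeg
      (τ := ((2 * a).factorial : ℝ)⁻¹ * τ) (mul_ne_zero (inv_ne_zero hfact) hτ) ?_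
    rw [hfactC] at h1
    rw [C_mul, mul_assoc, ← h1]
    have h2 : C ((2 * a).factorial : ℝ)⁻¹ * C ((2 * a).factorial : ℝ) = (1 : ℝ[X]) := by
      rw [← C_mul, inv_mul_cancel₀ hfact, C_1]
    linear_combination (-(θ * (stack (Matrix.of B)
      (realQ e (matA fun x => t (Sum.inl x)))).det)) * h2
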