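import Pool.Agent.Helper730_PP.Robust
import Pool.Agent.Helper730_PP.Core22

/-!
# Generic real dynamic pole placement for `m = p = 2`: the negative half

For `m = p = 2` the necessary condition is `n ≤ 3q + 4` and the Rosenthal–Wang sufficient condition
is `n ≤ 3q + 3` for `q` even and `n ≤ 3q + 2` for `q` odd.  We show that the property fails for all
other `n`, so the Rosenthal–Wang condition is also necessary for `m = p = 2`.
-/

open Polynomial Matrix

namespace Pool.Agent.Helper730_PP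

theorem bval_four {V : Fin 4 → Fin 4 → ℝ[X]} (hV : ∀ i j, V i j = - V j i)
    (A0 A1 B0 B1 s : ℝ[X]) :
    bval V ![A0, s * B0, A1, s * B1] ![-(s * B0), A0, -(s * B1), A1]
      = V 0 1 * (A0 ^ 2 + s ^ 2 * B0 ^ 2) + V 2 3 * (A1 ^ 2 + s ^ 2 * B1 ^ 2)
        + (s * (V 0 2 + V 1 3)) * (A1 * B0 - A0 * B1)
        + (V 0 3 - V 1 2) * (A0 * A1 + s ^ 2 * (B0 * B1)) := by
  have hd : ∀ i, V i i = 0 := by
    intro i
    have h1 := hV i i
    have h2 : (2 : ℝ[X]) * V i i = 0 := by linear_combination h1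
    exact (mul_eq_zero.mp h2).resolve_left (by norm_num)
  unfold bval
  simp only [Fin.sum_univ_four, Matrix.cons_val_zero, Matrix.cons_val_one, Matrix.cons_val_two,
    Matrix.cons_val_three, Matrix.head_cons, Matrix.tail_cons]
  rw [hd 0, hd 1, hd 2, hd 3, hV 1 0, hV 2 0, hV 3 0, hV 2 1, hV 3 1, hV 3 2]
  ring

theorem natDegree_sumsq {A0 A1 B0 B1 : ℝ[X]} {σ : ℝ} {d : ℕ} (hσ : 0 < σ)
    (h0 : A0.natDegree ≤ d) (h1 : B0.natDegree ≤ d) (h2 : A1.natDegree = d)
    (h3 : B1.natDegree ≤ d) (hA1 : A1 ≠ 0) :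
    0 < (A0 ^ 2 + C σ * B0 ^ 2 + (A1 ^ 2 + C σ * B1 ^ 2)).coeff (d + d) := by
  have e : ∀ f : ℝ[X], f.natDegree ≤ d → (f ^ 2).coeff (d + d) = f.coeff d ^ 2 := by
    intro f hf
    rw [pow_two, coeff_mul_add_eq_of_natDegree_le hf hf, pow_two]
  rw [coeff_add, coeff_add, coeff_add, coeff_C_mul, coeff_C_mul, e _ h0, e _ h1, e _ h2.le,
    e _ h3]
  have h4 : A1.coeff d ≠ 0 := by
    rw [← h2]; exact fun h => hA1 (leadingCoeff_eq_zero.mp h)
  have h5 : 0 < A1.coeff d ^ 2 := by positivity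
  positivity

end Pool.Agent.Helper730_PP

open Pool.Agent.Helper730_PP

/-- For `m = p = 2`, every `q ≥ 1`, and every `n ≥ 3q + 3` (`q` odd) or `n ≥ 3q + 4` (`q` even),
generic real pole placement fails. -/
theorem Pool.Agent.Results.MP_cc7c04_an.TwoByTwo.result (q n : ℕ) (_hq : 1 ≤ q)
    (hn : (Odd q ∧ 3 * q + 3 ≤ n) ∨ (Even q ∧ 3 * q + 4 ≤ n)) :
    ¬ GenericRealPolePlacement 2 2 n q := by
  set c : ℕ := (q + 2) / 2 with hc
  set L : ℕ := q + 1 with hL
  have hLc : 2 * (L + c) ≤ n := by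
    rcases hn with ⟨⟨k, hk⟩, h⟩ | ⟨⟨k, hk⟩, h⟩ <;> omega
  obtain ⟨A0, A1, B0, B1, σ, hσ, dA0, dB0, dA1, dB1, hinj⟩ :=
    exists_plant (L := L) (c := c) (by omega) (by omega) (by omega)
  have hA1 : A1 ≠ 0 := by
    rintro rfl
    rw [natDegree_zero] at dA1
    omega
  set s : ℝ[X] := C (Real.sqrt σ) with hs
  have hs2 : s ^ 2 = C σ := by rw [hs, ← C_pow, Real.sq_sqrt hσ.le]
  have hs0 : s ≠ 0 := by
    rw [hs]; simpa using (Real.sqrt_pos.mpr hσ).ne'
  have hsdeg : ∀ f : ℝ[X], f.natDegree ≤ L + c → (s * f).natDegree ≤ L + c := fun f hf =>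
    (natDegree_C_mul_le _ _).trans hf
  set a : Fin (2 + 2) → ℝ[X] := ![A0, s * B0, A1, s * B1] with ha
  set b : Fin (2 + 2) → ℝ[X] := ![-(s * B0), A0, -(s * B1), A1] with hb
  have hadeg : ∀ j, (a j).natDegree ≤ L + c := by
    intro j
    fin_cases j
    · exact dA0
    · exact hsdeg _ dB0
    · exact dA1.le
    · exact hsdeg _ dB1
  have hbdeg : ∀ j, (b j).natDegree ≤ L + c := by
    intro j
    fin_cases j
    · show (-(s * B0)).natDegree ≤ L + c
      rw [natDegree_neg]; exact hsdeg _ dB0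
    · exact dA0
    · show (-(s * B1)).natDegree ≤ L + c
      rw [natDegree_neg]; exact hsdeg _ dB1
    · exact dA1.le
  have hhigh : ∀ f : ℝ[X], f.natDegree ≤ q → ∀ k, L ≤ k → f.coeff k = 0 := fun f hf k hk =>
    coeff_eq_zero_of_natDegree_lt (by omega)
  -- the final step
  have hfinal : ∀ V : Fin (2 + 2) → Fin (2 + 2) → ℝ[X], (∀ i j, (V i j).natDegree ≤ q) →
      IsPlucker V → ∀ τ : ℝ,
      V 0 1 * (A0 ^ 2 + C σ * B0 ^ 2) + V 2 3 * (A1 ^ 2 + C σ * B1 ^ 2)
        + (s * (V 0 2 + V 1 3)) * (A1 * B0 - A0 * B1)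
        + (V 0 3 - V 1 2) * (A0 * A1 + C σ * (B0 * B1))
        = C τ * X ^ q * (A0 ^ 2 + C σ * B0 ^ 2 + (A1 ^ 2 + C σ * B1 ^ 2)) →
      ∀ i j, V i j = 0 := by
    intro V hVd hVP τ h
    have hτd : (C τ * X ^ q : ℝ[X]).natDegree ≤ q := natDegree_C_mul_X_pow_le _ _
    obtain ⟨k1, k2, k3, k4⟩ := hinj (V 0 1 - C τ * X ^ q) (V 2 3 - C τ * X ^ q)
      (s * (V 0 2 + V 1 3)) (V 0 3 - V 1 2)
      (hhigh _ ((natDegree_sub_le _ _).trans (max_le (hVd _ _) hτd)))
      (hhigh _ ((natDegree_sub_le _ _).trans (max_le (hVd _ _) hτd)))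
      (hhigh _ ((natDegree_C_mul_le _ _).trans
        ((natDegree_add_le _ _).trans (max_le (hVd _ _) (hVd _ _)))))
      (hhigh _ ((natDegree_sub_le _ _).trans (max_le (hVd _ _) (hVd _ _))))
      (by linear_combination h)
    have k3' : V 0 2 + V 1 3 = 0 := (mul_eq_zero.mp k3).resolve_left hs0
    have hpl := hVP.2 0 1 2 3
    have hsum : (C τ * X ^ q) ^ 2 + (V 0 2 ^ 2 + V 0 3 ^ 2) = 0 := by
      linear_combination hpl - V 2 3 * k1 - (C τ * X ^ q) * k2 + V 0 2 * k3' + V 0 3 * k4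
    have hsq : ∀ x : ℝ, (C τ * X ^ q : ℝ[X]).eval x = 0 ∧ (V 0 2).eval x = 0 ∧
        (V 0 3).eval x = 0 := by
      intro x
      have h1 := congrArg (eval x) hsum
      rw [eval_add, eval_add, eval_pow, eval_pow, eval_pow, eval_zero] at h1
      have e1 := sq_nonneg ((C τ * X ^ q : ℝ[X]).eval x)
      have e2 := sq_nonneg ((V 0 2).eval x)
      have e3 := sq_nonneg ((V 0 3).eval x)
      refine ⟨pow_eq_zero_iff two_ne_zero |>.mp ?_, pow_eq_zero_iff two_ne_zero |>.mp ?_,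
        pow_eq_zero_iff two_ne_zero |>.mp ?_⟩ <;> linarith
    have z0 : (C τ * X ^ q : ℝ[X]) = 0 := Polynomial.funext fun x => by
      rw [(hsq x).1, eval_zero]
    have z02 : V 0 2 = 0 := Polynomial.funext fun x => by rw [(hsq x).2.1, eval_zero]
    have z03 : V 0 3 = 0 := Polynomial.funext fun x => by rw [(hsq x).2.2, eval_zero]
    have z01 : V 0 1 = 0 := by rw [z0, sub_zero] at k1; exact k1
    have z23 : V 2 3 = 0 := by rw [z0, sub_zero] at k2; exact k2
    have z13 : V 1 3 = 0 := by rw [z02, zero_add] at k3'; exact k3'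
    have z12 : V 1 2 = 0 := by rw [z03, zero_sub, neg_eq_zero] at k4; exact k4
    have hd : ∀ i, V i i = 0 := by
      intro i
      have h1 := hVP.1 i i
      have h2 : (2 : ℝ[X]) * V i i = 0 := by linear_combination h1
      exact (mul_eq_zero.mp h2).resolve_left (by norm_num)
    intro i j
    fin_cases i <;> fin_cases j
    · exact hd 0
    · exact z01
    · exact z02
    · exact z03
    · exact (hVP.1 1 0).trans (by rw [z01, neg_zero])
    · exact hd 1
    · exact z12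
    · exact z13
    · exact (hVP.1 2 0).trans (by rw [z02, neg_zero])
    · exact (hVP.1 2 1).trans (by rw [z12, neg_zero])
    · exact hd 2
    · exact z23
    · exact (hVP.1 3 0).trans (by rw [z03, neg_zero])
    · exact (hVP.1 3 1).trans (by rw [z13, neg_zero])
    · exact (hVP.1 3 2).trans (by rw [z23, neg_zero])
    · exact hd 3
  have hbv : ∀ V : Fin (2 + 2) → Fin (2 + 2) → ℝ[X], IsPlucker V → bval V a b
      = V 0 1 * (A0 ^ 2 + C σ * B0 ^ 2) + V 2 3 * (A1 ^ 2 + C σ * B1 ^ 2)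
        + (s * (V 0 2 + V 1 3)) * (A1 * B0 - A0 * B1)
        + (V 0 3 - V 1 2) * (A0 * A1 + C σ * (B0 * B1)) := by
    intro V hVP
    rw [← hs2]
    exact bval_four hVP.1 A0 A1 B0 B1 s
  have hpos := natDegree_sumsq hσ dA0 dB0 dA1 dB1 hA1
  set Φ : ℝ[X] := A0 ^ 2 + C σ * B0 ^ 2 + (A1 ^ 2 + C σ * B1 ^ 2) with hΦ
  have hsqd : ∀ f : ℝ[X], f.natDegree ≤ L + c → (f ^ 2).natDegree ≤ (L + c) + (L + c) := by
    intro f hf
    rw [pow_two]; exact natDegree_mul_le.trans (add_le_add hf hf)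
  have hΦd : Φ.natDegree ≤ (L + c) + (L + c) := by
    refine (natDegree_add_le _ _).trans (max_le ((natDegree_add_le _ _).trans (max_le ?_ ?_))
      ((natDegree_add_le _ _).trans (max_le ?_ ?_)))
    · exact hsqd _ dA0
    · exact (natDegree_C_mul_le _ _).trans (hsqd _ dB0)
    · exact hsqd _ dA1.le
    · exact (natDegree_C_mul_le _ _).trans (hsqd _ dB1)
  have hΦ0 : Φ ≠ 0 := by
    intro h
    rw [h, coeff_zero] at hpos
    exact lt_irrefl _ hpos
  have hΦd' : Φ.natDegree = (L + c) + (L + c) :=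
    le_antisymm hΦd (le_natDegree_of_ne_zero hpos.ne')
  rcases Nat.lt_or_ge (2 * (L + c)) n with hlt | hge
  · -- large `n`: the degrees alone rule out a nonzero multiple of `φ`
    refine not_generic_of_no_solution a b (X ^ (n + q)) (natDegree_X_pow _)
      (pow_ne_zero _ X_ne_zero) (fun j => (hadeg j).trans (by omega))
      (fun j => (hbdeg j).trans (by omega)) ?_
    intro V hVd hVP τ hτ
    have hdeg : (bval V a b).natDegree < n + q := by
      refine lt_of_le_of_lt (b := q + ((L + c) + (L + c))) ?_ (by omega)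
      unfold bval
      refine natDegree_sum_le_of_forall_le _ _ fun i _ => ?_
      refine natDegree_sum_le_of_forall_le _ _ fun j _ => ?_
      have h1 := hadeg i
      have h2 := hbdeg j
      have h3 := hVd i j
      have h4 : (a i * b j).natDegree ≤ (L + c) + (L + c) :=
        natDegree_mul_le.trans (add_le_add h1 h2)
      refine natDegree_mul_le.trans ?_
      omega
    have hτ0 : τ = 0 := by
      have h1 := coeff_eq_zero_of_natDegree_lt hdeg
      rw [hτ, coeff_C_mul, coeff_X_pow, if_pos rfl, mul_one] at h1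
      exact h1
    refine hfinal V hVd hVP 0 ?_
    rw [← hbv V hVP, hτ, hτ0]
    simp
  · have hn2 : n = 2 * (L + c) := le_antisymm hge hLc
    refine not_generic_of_no_solution a b (X ^ q * Φ) ?_ ?_
      (fun j => (hadeg j).trans (by omega)) (fun j => (hbdeg j).trans (by omega)) ?_
    · rw [natDegree_mul (pow_ne_zero _ X_ne_zero) hΦ0, natDegree_X_pow, hΦd']
      omega
    · exact mul_ne_zero (pow_ne_zero _ X_ne_zero) hΦ0
    · intro V hVd hVP τ hτ
      refine hfinal V hVd hVP τ ?_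
      rw [← hbv V hVP, hτ]
      ring
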